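import Mathlib
import Pool.Agent.L0h79.AJ.Stm

set_option autoImplicit false
set_option linter.all false

/-!
# Project AJ, module BSYS: algebra of the group ring
-/

namespace Pool.Agent.L0h90.AJ.BSys

open Pool.Agent.TH796.AL Pool.Agent.L0h79.AJ

variable {K : Type} [Field K] {m : ℕ}

lemma supp_mul {P H : AddMonoidAlgebra K (Fin m → ℝ)} {g : Fin m → ℝ} (h : (P * H).coeff g ≠ 0) :
    ∃ a b, P.coeff a ≠ 0 ∧ H.coeff b ≠ 0 ∧ a + b = g := by
  classical
  rw [AddMonoidAlgebra.coeff_mul, Finsupp.sum] at h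
  obtain ⟨a, ha, h1⟩ := Finset.exists_ne_zero_of_sum_ne_zero h
  rw [Finsupp.sum] at h1
  obtain ⟨b, hb, h2⟩ := Finset.exists_ne_zero_of_sum_ne_zero h1
  refine ⟨a, b, Finsupp.mem_support_iff.1 ha, Finsupp.mem_support_iff.1 hb, ?_⟩
  by_contra hne
  exact h2 (if_neg hne)

lemma supp_sum {ι : Type} {s : Finset ι} {f : ι → AddMonoidAlgebra K (Fin m → ℝ)}
    {g : Fin m → ℝ} (h : (∑ i ∈ s, f i).coeff g ≠ 0) : ∃ i ∈ s, (f i).coeff g ≠ 0 := by
  rw [AddMonoidAlgebra.coeff_sum, Finsupp.finsetSum_apply] at h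
  exact Finset.exists_ne_zero_of_sum_ne_zero h

/-- the part of `f` in the coset `γ + W`, translated to `W` -/
noncomputable def comp (W : Submodule ℝ (Fin m → ℝ)) (γ : Fin m → ℝ)
    (f : AddMonoidAlgebra K (Fin m → ℝ)) : AddMonoidAlgebra K (Fin m → ℝ) := by
  classical
  exact AddMonoidAlgebra.ofCoeff ((AddMonoidAlgebra.single (-γ) (1 : K) * f).coeff.filter (· ∈ W))

lemma comp_coeff (W : Submodule ℝ (Fin m → ℝ)) (γ : Fin m → ℝ)
    (f : AddMonoidAlgebra K (Fin m → ℝ)) {v : Fin m → ℝ} (hv : v ∈ W) :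
    (comp W γ f).coeff v = f.coeff (γ + v) := by
  classical
  unfold comp
  rw [AddMonoidAlgebra.coeff_ofCoeff, Finsupp.filter_apply_pos _ _ hv,
    AddMonoidAlgebra.coeff_single_mul_apply, one_mul, neg_neg]

lemma comp_coeff_not (W : Submodule ℝ (Fin m → ℝ)) (γ : Fin m → ℝ)
    (f : AddMonoidAlgebra K (Fin m → ℝ)) {v : Fin m → ℝ} (hv : v ∉ W) :
    (comp W γ f).coeff v = 0 := by
  classical
  unfold comp
  rw [AddMonoidAlgebra.coeff_ofCoeff, Finsupp.filter_apply_neg _ _ hv]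

lemma comp_supp {W : Submodule ℝ (Fin m → ℝ)} {γ : Fin m → ℝ}
    {f : AddMonoidAlgebra K (Fin m → ℝ)} {v : Fin m → ℝ} (h : (comp W γ f).coeff v ≠ 0) :
    v ∈ W ∧ f.coeff (γ + v) ≠ 0 := by
  by_cases hv : v ∈ W
  · exact ⟨hv, by rwa [comp_coeff W γ f hv] at h⟩
  · exact absurd (comp_coeff_not W γ f hv) h

lemma comp_add (W : Submodule ℝ (Fin m → ℝ)) (γ : Fin m → ℝ)
    (f g : AddMonoidAlgebra K (Fin m → ℝ)) : comp W γ (f + g) = comp W γ f + comp W γ g := by
  apply AddMonoidAlgebra.coeff_injective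
  ext v
  rw [AddMonoidAlgebra.coeff_add, Finsupp.add_apply]
  by_cases hv : v ∈ W
  · rw [comp_coeff W γ _ hv, comp_coeff W γ _ hv, comp_coeff W γ _ hv, AddMonoidAlgebra.coeff_add,
      Finsupp.add_apply]
  · rw [comp_coeff_not W γ _ hv, comp_coeff_not W γ _ hv, comp_coeff_not W γ _ hv, add_zero]

lemma comp_zero (W : Submodule ℝ (Fin m → ℝ)) (γ : Fin m → ℝ) :
    comp W γ (0 : AddMonoidAlgebra K (Fin m → ℝ)) = 0 := by
  have h := comp_add W γ (0 : AddMonoidAlgebra K (Fin m → ℝ)) 0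
  rw [add_zero] at h
  exact left_eq_add.1 h

lemma comp_sum {ι : Type} (s : Finset ι) (W : Submodule ℝ (Fin m → ℝ)) (γ : Fin m → ℝ)
    (f : ι → AddMonoidAlgebra K (Fin m → ℝ)) :
    comp W γ (∑ i ∈ s, f i) = ∑ i ∈ s, comp W γ (f i) := by
  classical
  induction s using Finset.induction_on with
  | empty => rw [Finset.sum_empty, Finset.sum_empty, comp_zero]
  | insert a s ha ih => rw [Finset.sum_insert ha, Finset.sum_insert ha, comp_add, ih]

lemma comp_mul (W : Submodule ℝ (Fin m → ℝ)) (γ : Fin m → ℝ)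
    (q f : AddMonoidAlgebra K (Fin m → ℝ)) (hq : ∀ g, q.coeff g ≠ 0 → g ∈ W) :
    comp W γ (q * f) = q * comp W γ f := by
  classical
  apply AddMonoidAlgebra.coeff_injective
  ext v
  by_cases hv : v ∈ W
  · rw [comp_coeff W γ _ hv, AddMonoidAlgebra.coeff_mul, AddMonoidAlgebra.coeff_mul]
    refine Finset.sum_congr rfl fun a ha => ?_
    have haW : a ∈ W := hq a (Finsupp.mem_support_iff.1 ha)
    have h1 : ∀ (x : AddMonoidAlgebra K (Fin m → ℝ)) (y : Fin m → ℝ),
        (x.coeff.sum fun b r => if a + b = y then q.coeff a * r else 0)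
          = q.coeff a * x.coeff (y - a) := by
      intro x y
      have h2 : ∀ b : Fin m → ℝ, a + b = y ↔ b = y - a := fun b =>
        ⟨fun h => by rw [← h]; abel, fun h => by rw [h]; abel⟩
      simp only [h2]
      rw [Finsupp.sum_ite_eq', ← mul_ite_zero]
      by_cases h3 : y - a ∈ x.coeff.support
      · rw [if_pos h3]
      · rw [if_neg h3, Finsupp.notMem_support_iff.1 h3]
    show (f.coeff.sum fun b r => if a + b = γ + v then q.coeff a * r else 0)
      = (comp W γ f).coeff.sum fun b r => if a + b = v then q.coeff a * r else 0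
    rw [h1, h1, comp_coeff W γ f (W.sub_mem hv haW)]
    congr 2
    abel
  · rw [comp_coeff_not W γ _ hv]
    symm
    by_contra h
    obtain ⟨a, b, ha, hb, hab⟩ := supp_mul h
    apply hv
    rw [← hab]
    exact W.add_mem (hq a ha) (comp_supp hb).1

/-- the filtration -/
def fil (B : Base m) (W : Submodule ℝ (Fin m → ℝ)) (t : ℝ) (s : ℕ) :
    AddSubgroup (AddMonoidAlgebra K (Fin m → ℝ)) where
  carrier := {f | ∀ g, f.coeff g ≠ 0 → g ∈ W ∧ ∀ u, |lv B u g| ≤ s * t}
  add_mem' := by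
    intro f g hf hg x hx
    rw [AddMonoidAlgebra.coeff_add, Finsupp.add_apply] at hx
    by_cases h : f.coeff x = 0
    · rw [h, zero_add] at hx
      exact hg x hx
    · exact hf x h
  zero_mem' := by
    intro x hx
    exact absurd (by rw [AddMonoidAlgebra.coeff_zero]; rfl) hx
  neg_mem' := by
    intro f hf x hx
    refine hf x ?_
    intro h0
    apply hx
    rw [AddMonoidAlgebra.coeff_neg, Finsupp.neg_apply, h0, neg_zero]

lemma isDom : IsDomain (AddMonoidAlgebra K (Fin m → ℝ)) := by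
  haveI : NoZeroDivisors (AddMonoidAlgebra K (Fin m → ℝ)) := inferInstance
  exact NoZeroDivisors.to_isDomain _

/-- **BSYS** -/
theorem bsys (h1 : S_CRAM) (h2 : S_PROJ) : S_BSYS := by
  classical
  intro m B V W hVW
  obtain ⟨π, κ, hκ, hπV, hπW, hπ, hπb⟩ := h2 m B V W hVW
  refine ⟨κ, hκ, ?_⟩
  intro K _ I Za Zb J _ _ _ _ P hP Q hQ H c hc hH x₀ x₁ hA
  haveI : IsDomain (AddMonoidAlgebra K (Fin m → ℝ)) := isDom
  have hκc : 0 ≤ κ * c := mul_nonneg (by linarith) hc
  set M : I × Zb → J → AddMonoidAlgebra K (Fin m → ℝ) :=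
    fun k l => ∑ a, P k.1 a * H a k.2 l with hM
  have hMs : ∀ k l g, (M k l).coeff g ≠ 0 → ∀ u, |lv B u (π g)| ≤ κ * c := by
    intro k l g hg
    obtain ⟨a, -, ha⟩ := supp_sum hg
    obtain ⟨v, h, hv, hh, rfl⟩ := supp_mul ha
    rw [map_add, hπV v (hP _ _ _ hv), zero_add]
    exact hπb c h (hH _ _ _ _ hh)
  set Γ : Finset (Fin m → ℝ) := (Finset.univ.biUnion fun p : (I × Zb) × J =>
    (M p.1 p.2).coeff.support.image fun g => g - π g).filter fun γ => lv B none γ < x₁ with hΓ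
  have hΓ1 : ∀ γ ∈ Γ, π γ = 0 ∧ lv B none γ < x₁ := by
    intro γ hγ
    rw [hΓ, Finset.mem_filter] at hγ
    refine ⟨?_, hγ.2⟩
    obtain ⟨p, -, hp⟩ := Finset.mem_biUnion.1 hγ.1
    obtain ⟨g, -, rfl⟩ := Finset.mem_image.1 hp
    rw [map_sub, hπW _ (hπ g), sub_self]
  have hΓ2 : ∀ k l g, (M k l).coeff g ≠ 0 → lv B none (g - π g) < x₁ → g - π g ∈ Γ := by
    intro k l g hg hlt
    rw [hΓ, Finset.mem_filter]
    exact ⟨Finset.mem_biUnion.2 ⟨(k, l), Finset.mem_univ _,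
      Finset.mem_image.2 ⟨g, Finsupp.mem_support_iff.2 hg, rfl⟩⟩, hlt⟩
  have hS : ∀ (q : I × Zb → AddMonoidAlgebra K (Fin m → ℝ)) (l : J),
      ∑ k, q k * M k l = ∑ i, ∑ a, ∑ b, P i a * q (i, b) * H a b l := by
    intro q l
    rw [Fintype.sum_prod_type]
    refine Finset.sum_congr rfl fun i _ => ?_
    rw [Finset.sum_comm (s := (Finset.univ : Finset Za))]
    refine Finset.sum_congr rfl fun b _ => ?_
    rw [hM]
    simp only []
    rw [Finset.mul_sum]
    refine Finset.sum_congr rfl fun a _ => ?_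
    ring
  set Mat : Matrix (J × {x // x ∈ Γ}) (I × Zb) (AddMonoidAlgebra K (Fin m → ℝ)) :=
    fun r k => comp W (r.2 : Fin m → ℝ) (M k r.1) with hMat
  have hmv : ∀ q : I × Zb → AddMonoidAlgebra K (Fin m → ℝ),
      (∀ k g, (q k).coeff g ≠ 0 → g ∈ W) → ∀ r, Mat.mulVec q r
        = comp W (r.2 : Fin m → ℝ) (∑ k, q k * M k r.1) := by
    intro q hq r
    rw [comp_sum]
    show ∑ k, Mat r k * q k = _
    refine Finset.sum_congr rfl fun k _ => ?_
    rw [comp_mul W _ _ _ (hq k), mul_comm]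
  have hmono : Monotone (fil (K := K) B W (κ * c)) := by
    intro s t hst f hf g hg
    obtain ⟨h3, h4⟩ := hf g hg
    refine ⟨h3, fun u => (h4 u).trans ?_⟩
    have : (s : ℝ) ≤ t := by exact_mod_cast hst
    exact mul_le_mul_of_nonneg_right this hκc
  have hone : (1 : AddMonoidAlgebra K (Fin m → ℝ)) ∈ fil (K := K) B W (κ * c) 0 := by
    intro g hg
    have hg0 : g = 0 := by
      by_contra hne
      apply hg
      rw [AddMonoidAlgebra.one_def, AddMonoidAlgebra.coeff_single, Finsupp.single_apply,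
        if_neg (Ne.symm hne)]
    rw [hg0]
    refine ⟨W.zero_mem, fun u => ?_⟩
    rw [lv_zero, abs_zero]
    simp
  have hmul : ∀ i j, ∀ a ∈ fil (K := K) B W (κ * c) i, ∀ b ∈ fil (K := K) B W (κ * c) j,
      a * b ∈ fil (K := K) B W (κ * c) (i + j) := by
    intro i j a ha b hb g hg
    obtain ⟨x, y, hx, hy, rfl⟩ := supp_mul hg
    obtain ⟨h3, h4⟩ := ha x hx
    obtain ⟨h5, h6⟩ := hb y hy
    refine ⟨W.add_mem h3 h5, fun u => ?_⟩
    rw [lv_add]
    refine (abs_add_le _ _).trans ?_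
    push_cast
    rw [add_mul]
    exact add_le_add (h4 u) (h6 u)
  have hent : ∀ i k, Mat i k ∈ fil (K := K) B W (κ * c) 1 := by
    intro r k v hv
    obtain ⟨h3, h4⟩ := comp_supp hv
    refine ⟨h3, fun u => ?_⟩
    have h5 := hMs k r.1 _ h4 u
    rw [map_add, (hΓ1 r.2 r.2.2).1, zero_add, hπW v h3] at h5
    simpa using h5
  obtain ⟨Δ, n, a, hΔ, hΔF, hnF, haF, hn0, hsol⟩ :=
    h1 (AddMonoidAlgebra K (Fin m → ℝ)) (J × {x // x ∈ Γ}) (I × Zb) Mat
      (fil (K := K) B W (κ * c)) hmono hone hmul hent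
  refine ⟨Δ, fun c' i b => n c' (i, b), hΔ, ?_, ?_, ?_, ?_⟩
  · intro g hg u
    have := (hΔF g hg).2 u
    linarith
  · intro c' i b g hg u
    have := (hnF c' (i, b) g hg).2 u
    linarith
  · intro c' l g hg
    have hg1 : (∑ k, n c' k * M k l).coeff g ≠ 0 := by
      rw [hS (n c') l]
      exact hg
    obtain ⟨k, -, hk⟩ := supp_sum hg1
    obtain ⟨w, g', hw, hg', rfl⟩ := supp_mul hk
    obtain ⟨hwW, hwb⟩ := hnF c' k w hw
    have hb1 := abs_le.1 (hwb none)
    have hb2 := abs_le.1 (hMs k l g' hg' none)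
    have hx : x₁ ≤ lv B none (g' - π g') := by
      by_contra hlt
      push Not at hlt
      have hmem := hΓ2 k l g' hg' hlt
      have h0 : Mat.mulVec (n c') (l, ⟨_, hmem⟩) = 0 := congrFun (hn0 c') _
      rw [hmv (n c') (fun k g hg => (hnF c' k g hg).1)] at h0
      apply hg1
      have h3 := comp_coeff W (g' - π g') (∑ k, n c' k * M k l) (W.add_mem hwW (hπ g'))
      have e : g' - π g' + (w + π g') = w + g' := by abel
      rw [e] at h3
      rw [← h3]
      have h4 : comp W (g' - π g') (∑ k, n c' k * M k l) = 0 := h0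
      rw [h4]
      rfl
    have e : lv B none (w + g') = lv B none (g' - π g') + lv B none w + lv B none (π g') := by
      rw [← lv_add, ← lv_add]
      congr 1
      abel
    rw [e]
    have e2 : κ * c * ((Fintype.card (I × Zb) : ℝ) + 1)
        = Fintype.card (I × Zb) * (κ * c) + κ * c := by ring
    rw [e2]
    linarith [hb1.1, hb2.1]
  · intro i b g hg
    have h := hsol (fun k => Q k.1 k.2) (i, b)
    simp only [] at h
    rw [h, add_sub_cancel_left] at hg
    obtain ⟨r, -, hr⟩ := supp_sum hg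
    obtain ⟨v, w, hv, hw, rfl⟩ := supp_mul hr
    rw [hmv _ (fun k g hg => hQ _ _ _ hg)] at hv
    obtain ⟨hvW, hv2⟩ := comp_supp hv
    rw [hS] at hv2
    have h4 := hA _ _ hv2
    have h5 := (hΓ1 r.2 r.2.2).2
    rw [lv_add] at h4
    have h6 := abs_le.1 ((haF r (i, b) w hw).2 none)
    rw [lv_add]
    have e2 : κ * c * (Fintype.card (I × Zb) : ℝ) = Fintype.card (I × Zb) * (κ * c) := by ring
    rw [e2]
    linarith [h6.1]

end Pool.Agent.L0h90.AJ.BSys

namespace Pool.Agent.L0h90.AJ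

/-- **BSYS** -/
theorem bsys (h1 : Pool.Agent.L0h79.AJ.S_CRAM) (h2 : Pool.Agent.L0h79.AJ.S_PROJ) :
    Pool.Agent.L0h79.AJ.S_BSYS :=
  BSys.bsys h1 h2

end Pool.Agent.L0h90.AJ
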