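import Mathlib
import Pool.Agent.L0h79.AJ.Stm
import Pool.Agent.TH796.AL.Dir

set_option autoImplicit false
set_option linter.all false

/-!
# Project AJ, module GBIL: small bilinear expressions of germs
-/

namespace Pool.Agent.L0h90.AJ.GBil

open Filter Topology Pool.Agent.TH932.Abs Pool.Agent.TH932.Germs Pool.Agent.TH932.Chi
open Pool.Agent.TH796.AL Pool.Agent.TH796.AL.Lin Pool.Agent.TH796.AL.Dir Pool.Agent.L0h79.FR
open Pool.Agent.L0h79.AJ

lemma gb_consts (M κ' k C a b J : ℝ) (hM : 0 ≤ M) (hκ : 0 ≤ κ') (hk : 0 ≤ k) (hC : 0 ≤ C)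
    (ha : 0 ≤ a) (hb : 0 ≤ b) (hJ0 : 0 ≤ J) (hJ : J ≤ a * b) :
    (κ' * (M * C * (a * b + 1) ^ 2) * (k * b) + C ≤
      (4 * M + 4 * κ' * M * k + κ' * M + 6) * (C + 1) * (a + b + 1) ^ 5) ∧
    (κ' * (M * C * (a * b + 1) ^ 2) * (k * b + 1) + 2 * C + M * C * (a * b + 1) ^ 2 + 1 ≤
      (4 * M + 4 * κ' * M * k + κ' * M + 6) * (C + 1) * (a + b + 1) ^ 5) ∧
    (2 * (M * C * (a * b + 1) ^ 2 + M * C * J +
        2 * (κ' * (M * C * (a * b + 1) ^ 2) * (k * b)) + C + 2) ≤
      (4 * M + 4 * κ' * M * k + κ' * M + 6) * (C + 1) * (a + b + 1) ^ 5) := by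
  set N : ℝ := a + b + 1 with hN
  set Y : ℝ := (C + 1) * N ^ 5 with hY
  set c : ℝ := M * C * (a * b + 1) ^ 2 with hc
  have hN1 : 1 ≤ N := by rw [hN]; linarith
  have hN0 : 0 ≤ N := by linarith
  have hbN : b ≤ N := by rw [hN]; linarith
  have h1 : a * b + 1 ≤ N ^ 2 := by rw [hN]; nlinarith [mul_nonneg ha hb]
  have h2 : (a * b + 1) ^ 2 ≤ N ^ 4 := by
    calc (a * b + 1) ^ 2 ≤ (N ^ 2) ^ 2 := pow_le_pow_left₀ (by positivity) h1 2
      _ = N ^ 4 := by ring
  have h45 : N ^ 4 ≤ N ^ 5 := pow_le_pow_right₀ hN1 (by norm_num)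
  have h25 : N ^ 2 ≤ N ^ 5 := pow_le_pow_right₀ hN1 (by norm_num)
  have h15 : 1 ≤ N ^ 5 := one_le_pow₀ hN1
  have hY1 : 1 ≤ Y := by rw [hY]; nlinarith
  have hCY : C ≤ Y := by rw [hY]; nlinarith
  have hc0 : 0 ≤ c := by positivity
  have hcN : c ≤ M * (C + 1) * N ^ 4 := by
    rw [hc]
    have : M * C ≤ M * (C + 1) := by nlinarith
    exact mul_le_mul this h2 (by positivity) (by positivity)
  have hcY : c ≤ M * Y := by
    refine hcN.trans ?_
    rw [hY, ← mul_assoc]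
    exact mul_le_mul_of_nonneg_left h45 (by positivity)
  have hcb : c * b ≤ M * Y := by
    calc c * b ≤ (M * (C + 1) * N ^ 4) * N := mul_le_mul hcN hbN hb (by positivity)
      _ = M * Y := by rw [hY]; ring
  have hJY : M * C * J ≤ M * Y := by
    have h3 : J ≤ N ^ 5 := by linarith
    calc M * C * J ≤ M * (C + 1) * N ^ 5 :=
          mul_le_mul (by nlinarith) h3 hJ0 (by positivity)
      _ = M * Y := by rw [hY]; ring
  have e : (4 * M + 4 * κ' * M * k + κ' * M + 6) * (C + 1) * N ^ 5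
      = 4 * (M * Y) + 4 * (κ' * k * (M * Y)) + κ' * (M * Y) + 6 * Y := by rw [hY]; ring
  have e1 : κ' * c * (k * b) = κ' * k * (c * b) := by ring
  have e2 : κ' * c * (k * b + 1) = κ' * k * (c * b) + κ' * c := by ring
  have h5 : κ' * k * (c * b) ≤ κ' * k * (M * Y) := mul_le_mul_of_nonneg_left hcb (by positivity)
  have h6 : κ' * c ≤ κ' * (M * Y) := mul_le_mul_of_nonneg_left hcY hκ
  have h7 : 0 ≤ κ' * k * (M * Y) := by positivity
  have h8 : 0 ≤ κ' * (M * Y) := by positivity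
  have h9 : 0 ≤ M * Y := by positivity
  rw [e, e1, e2]
  refine ⟨by linarith, by linarith, by linarith⟩

variable {m : ℕ} {B : Base m} {L : ℕ → ℝ} (hL : Tendsto L atTop atTop)

lemma ev_Sv {f : Rg m hL} {x : ℝ} (h : ∀ g, f.coeff g ≠ 0 → x ≤ lv B none g) :
    ev B hL f ∈ Sv B L none x := by
  rw [ev_sum]
  refine Finset.sum_induction _ (fun g => g ∈ Sv B L none x)
        (fun _ _ => (filt_v hL none).add_mem) ((filt_v hL none).zero_mem _) fun g hg => ?_
  have := (filt_v (B := B) hL none).mul_mem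
        ((filt_v (B := B) hL none).alg_mem (f.coeff g)) (ch_mem (B := B) hL none g)
  rw [zero_add] at this
  exact (filt_v hL none).anti (h g (Finsupp.mem_support_iff.1 hg)) this

/-- **GBIL** -/
theorem gbil (h1 : S_KPQ) (h2 : S_IND) (h3 : S_EVD) (h4 : S_BSYS) : S_GBIL := by
  classical
  intro m B V W hVW k
  obtain ⟨κ', hκ', hBS⟩ := h4 m B V W hVW
  have hκ0 : 0 ≤ κ' := by linarith
  refine ⟨4 * (4 * ((m : ℝ) + 1)) + 4 * κ' * (4 * ((m : ℝ) + 1)) * k + κ' * (4 * ((m : ℝ) + 1)) + 6,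
    by positivity, ?_⟩
  intro C hC L hL Za Zb fZa fZb z w hz1 hz2 hw1 hw2 P hP Q hQ E hE i₀ hi₀ hEb
  set zz : Za × Zb → GG := fun p => z p.1 * w p.2 with hzz
  have hzz1 : ∀ v j, zz j ∈ Sv B L v (-(2 * C)) := by
    intro v j
    exact (filt_v hL v).anti (by linarith) ((filt_v hL v).mul_mem (hz1 v j.1) (hw1 v j.2))
  have hzz2 : ∀ j, zz j ∈ SS L (RS B) (-(2 * C)) := by
    intro j
    exact (filt_S hL).anti (by linarith) ((filt_S hL).mul_mem (hz2 j.1) (hw2 j.2))
  obtain ⟨J, fJ, f, D, H, hJ, hind, hD, hDH, hBD, hBH⟩ :=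
    h2 m B L hL (Za × Zb) inferInstance zz (2 * C) (by linarith) hzz1
      (fun j => ⟨-(2 * C), hzz2 j⟩)
  set c : ℝ := 2 * (m + 1) * (2 * C) * ((Fintype.card (Za × Zb) : ℝ) + 1) ^ 2 with hc
  set K0 : ℝ := 2 * (m + 1) * (2 * C) * Fintype.card J with hK0
  have hc0 : 0 ≤ c := by positivity
  have hK := h1 m B L hL ⊥ inferInstance J fJ (fun j => zz (f j)) (2 * C) (by linarith) hind
    (fun v j => hzz1 v (f j)) (fun j => ⟨-(2 * C), hzz2 (f j)⟩)
  obtain ⟨-, hE2⟩ := h3 m B L hL c hc0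
  obtain ⟨hD1, hD2, hD3⟩ := hE2 D hBD
  have ht0 := hD3 hD
  have hinv := SR_inv hL (c + 1) _ ht0
  have hDne : rho (ev B hL D) ≠ 0 := fun h0 => ht0 (by rw [h0]; exact SR_zero _)
  have hexp : ∀ q : Fin k → Zb → Rg m hL,
      ev B hL D * ∑ i, (∑ a, ev B hL (P i a) * z a) * (∑ b, ev B hL (q i b) * w b)
      = ∑ j, ev B hL (∑ i, ∑ a, ∑ b, P i a * q i b * H (a, b) j) * zz (f j) := by
    intro q
    have e1 : ∀ i a b, ev B hL D * ((ev B hL (P i a) * z a) * (ev B hL (q i b) * w b))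
        = ∑ j, ev B hL (P i a * q i b * H (a, b) j) * zz (f j) := by
      intro i a b
      have e2 := hDH (a, b)
      have e3 : zz (a, b) = z a * w b := rfl
      rw [e3] at e2
      have e6 : ev B hL D * ((ev B hL (P i a) * z a) * (ev B hL (q i b) * w b))
          = ev B hL (P i a) * ev B hL (q i b) * (ev B hL D * (z a * w b)) := by ring
      rw [e6, e2, Finset.mul_sum]
      refine Finset.sum_congr rfl fun j _ => ?_
      rw [map_mul, map_mul]
      ring
    have e4 : ∀ i, ev B hL D * ((∑ a, ev B hL (P i a) * z a) * (∑ b, ev B hL (q i b) * w b))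
        = ∑ a, ∑ b, ∑ j, ev B hL (P i a * q i b * H (a, b) j) * zz (f j) := by
      intro i
      rw [Finset.sum_mul_sum, Finset.mul_sum]
      refine Finset.sum_congr rfl fun a _ => ?_
      rw [Finset.mul_sum]
      exact Finset.sum_congr rfl fun b _ => e1 i a b
    have e5 : ∀ j, ev B hL (∑ i, ∑ a, ∑ b, P i a * q i b * H (a, b) j) * zz (f j)
        = ∑ i, ∑ a, ∑ b, ev B hL (P i a * q i b * H (a, b) j) * zz (f j) := by
      intro j
      rw [map_sum, Finset.sum_mul]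
      refine Finset.sum_congr rfl fun i _ => ?_
      rw [map_sum, Finset.sum_mul]
      refine Finset.sum_congr rfl fun a _ => ?_
      rw [map_sum, Finset.sum_mul]
    rw [Finset.mul_sum]
    simp only [e4, e5]
    conv_rhs => rw [Finset.sum_comm]
    refine Finset.sum_congr rfl fun i _ => ?_
    conv_rhs => rw [Finset.sum_comm]
    refine Finset.sum_congr rfl fun a _ => ?_
    exact Finset.sum_comm
  -- the sums A
  have hAs : ∑ j, evA ⊥ B hL (incR hL ⊥ (∑ i, ∑ a, ∑ b, P i a * Q i b * H (a, b) j))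
      * rho (zz (f j)) ∈ SR L (-c + E) := by
    have e1 : ∑ j, evA ⊥ B hL (incR hL ⊥ (∑ i, ∑ a, ∑ b, P i a * Q i b * H (a, b) j))
        * rho (zz (f j)) = rho (ev B hL D) *
          rho (∑ i, (∑ a, ev B hL (P i a) * z a) * (∑ b, ev B hL (Q i b) * w b)) := by
      rw [← map_mul, hexp Q, map_sum]
      refine Finset.sum_congr rfl fun j _ => ?_
      rw [evA_incR, ← map_mul]
    rw [e1]
    exact SR_mul hL (SR_rho (hD1 none)) hE
  have hx0 : ∀ j g, (∑ i, ∑ a, ∑ b, P i a * Q i b * H (a, b) j).coeff g ≠ 0 →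
      E - c - K0 ≤ lv B none g := by
    intro j g hg
    have h5 := hK (fun j => incR hL ⊥ (∑ i, ∑ a, ∑ b, P i a * Q i b * H (a, b) j)) (-c + E) hAs j g
      (by
        rw [incR_coeff]
        intro h0
        have h6 := congrArg (fun x : KA ⊥ hL => (x : HR)) h0
        have h7 : rho (((∑ i, ∑ a, ∑ b, P i a * Q i b * H (a, b) j).coeff g : KK L hL) : GG)
          = 0 := h6
        exact hg (Subtype.ext (rho_injective (by rw [h7]; exact (map_zero rho).symm))))
    rw [hK0]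
    linarith
  obtain ⟨Δ, n, hΔ, hΔb, hnb, hnB, herr⟩ := hBS (KK L hL) (Fin k) Za Zb J P hP Q hQ
    (fun a b j => H (a, b) j) c hc0 (fun a b j g hg => hBH (a, b) j g hg) (E - c - K0) (E / 2) hx0
  set c2 : ℝ := κ' * c * Fintype.card (Fin k × Zb) with hc2
  have hc20 : 0 ≤ c2 := by positivity
  obtain ⟨-, hF⟩ := h3 m B L hL c2 hc20
  -- constants
  have hcardJ : (Fintype.card J : ℝ) ≤ (Fintype.card Za : ℝ) * Fintype.card Zb := by
    rw [Fintype.card_prod] at hJ
    exact_mod_cast hJ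
  obtain ⟨k1, k2, k3⟩ := gb_consts (4 * ((m : ℝ) + 1)) κ' (k : ℝ) C (Fintype.card Za : ℝ)
    (Fintype.card Zb : ℝ) (Fintype.card J : ℝ) (by positivity) hκ0 (by positivity) hC
    (by positivity) (by positivity) (by positivity) hcardJ
  have ec : 4 * ((m : ℝ) + 1) * C * ((Fintype.card Za : ℝ) * Fintype.card Zb + 1) ^ 2 = c := by
    rw [hc, Fintype.card_prod]
    push_cast
    ring
  have eK : 4 * ((m : ℝ) + 1) * C * (Fintype.card J : ℝ) = K0 := by
    rw [hK0]
    ring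
  have ec2 : κ' * c * ((k : ℝ) * Fintype.card Zb) = c2 := by
    rw [hc2, Fintype.card_prod, Fintype.card_fin]
    push_cast
    ring
  have ec3 : κ' * c * ((k : ℝ) * Fintype.card Zb + 1) = κ' * c * (Fintype.card (Fin k × Zb) + 1) := by
    rw [Fintype.card_prod, Fintype.card_fin]
    push_cast
    ring
  rw [ec, ec2] at k1
  rw [ec, ec3] at k2
  rw [ec, eK, ec2] at k3
  set X : ℝ := (4 * (4 * ((m : ℝ) + 1)) + 4 * κ' * (4 * ((m : ℝ) + 1)) * k
    + κ' * (4 * ((m : ℝ) + 1)) + 6) * (C + 1) * ((Fintype.card Za : ℝ) + Fintype.card Zb + 1) ^ 5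
    with hX
  -- some solution is not zero
  have hex : ∃ c' : Fin k × Zb, ∃ i, ∑ b, ev B hL (n c' i b) * w b ≠ 0 := by
    by_contra hall
    push Not at hall
    have e1 : ev B hL Δ * (∑ b, ev B hL (Q i₀ b) * w b)
        = ∑ b, ev B hL (Δ * Q i₀ b - ∑ c' : Fin k × Zb, Q c'.1 c'.2 * n c' i₀ b) * w b := by
      have e2 : ∑ b, ev B hL (∑ c' : Fin k × Zb, Q c'.1 c'.2 * n c' i₀ b) * w b = 0 := by
        have e3 : ∀ b, ev B hL (∑ c' : Fin k × Zb, Q c'.1 c'.2 * n c' i₀ b) * w b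
            = ∑ c' : Fin k × Zb, ev B hL (Q c'.1 c'.2) * (ev B hL (n c' i₀ b) * w b) := by
          intro b
          rw [map_sum, Finset.sum_mul]
          refine Finset.sum_congr rfl fun c' _ => ?_
          rw [map_mul, mul_assoc]
        simp only [e3]
        rw [Finset.sum_comm]
        refine Finset.sum_eq_zero fun c' _ => ?_
        rw [← Finset.mul_sum, hall c' i₀, mul_zero]
      have e4 : ev B hL Δ * (∑ b, ev B hL (Q i₀ b) * w b)
          = ∑ b, ev B hL (Δ * Q i₀ b) * w b := by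
        rw [Finset.mul_sum]
        refine Finset.sum_congr rfl fun b _ => ?_
        rw [map_mul, mul_assoc]
      have e5 : ∑ b, ev B hL (Δ * Q i₀ b) * w b
          = ∑ b, ev B hL (Δ * Q i₀ b - ∑ c' : Fin k × Zb, Q c'.1 c'.2 * n c' i₀ b) * w b
            + ∑ b, ev B hL (∑ c' : Fin k × Zb, Q c'.1 c'.2 * n c' i₀ b) * w b := by
        rw [← Finset.sum_add_distrib]
        refine Finset.sum_congr rfl fun b _ => ?_
        rw [← add_mul, ← map_add, sub_add_cancel]
      rw [e4, e5, e2, add_zero]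
    have hs : ev B hL Δ * (∑ b, ev B hL (Q i₀ b) * w b)
        ∈ Sv B L none (E - c - K0 - E / 2 - c2 - C) := by
      rw [e1]
      refine Finset.sum_induction _ (fun g => g ∈ Sv B L none (E - c - K0 - E / 2 - c2 - C))
        (fun _ _ => (filt_v hL none).add_mem) ((filt_v hL none).zero_mem _) fun b _ => ?_
      have h5 := (filt_v (B := B) hL none).mul_mem (ev_Sv (B := B) hL (fun g hg => herr i₀ b g hg))
        (hw1 none b)
      exact (filt_v hL none).anti (by linarith) h5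
    have hΔ3 := (hF Δ hΔb).2.2 hΔ
    have hΔi := SR_inv hL (c2 + 1) _ hΔ3
    have hΔne : rho (ev B hL Δ) ≠ 0 := fun h0 => hΔ3 (by rw [h0]; exact SR_zero _)
    apply hi₀
    have e6 : rho (∑ b, ev B hL (Q i₀ b) * w b) = (rho (ev B hL Δ))⁻¹ *
        rho (ev B hL Δ * (∑ b, ev B hL (Q i₀ b) * w b)) := by
      rw [map_mul, inv_mul_cancel_left₀ hΔne]
    rw [e6]
    refine SR_anti hL ?_ (SR_mul hL hΔi (SR_rho hs))
    linarith
  obtain ⟨c', hi⟩ := hex
  refine ⟨fun i => ∑ b, ev B hL (n c' i b) * w b, hi, ?_, ?_, ?_⟩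
  · intro i v
    refine Finset.sum_induction _ (fun g => g ∈ Sv B L v (-X))
      (fun _ _ => (filt_v hL v).add_mem) ((filt_v hL v).zero_mem _) fun b _ => ?_
    have h5 := (filt_v (B := B) hL v).mul_mem ((hF (n c' i b) (hnb c' i b)).1 v) (hw1 v b)
    exact (filt_v hL v).anti (by linarith) h5
  · intro i
    refine Finset.sum_induction _ (fun g => g ∈ SS L (RS B) (-X))
      (fun _ _ => (filt_S hL).add_mem) ((filt_S hL).zero_mem _) fun b _ => ?_
    have h5 := (filt_S (B := B) hL).mul_mem (hF (n c' i b) (hnb c' i b)).2.1 (hw2 b)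
    exact (filt_S hL).anti (by linarith) h5
  · have e6 : rho (∑ i, (∑ a, ev B hL (P i a) * z a) * ∑ b, ev B hL (n c' i b) * w b)
        = (rho (ev B hL D))⁻¹ * rho (∑ j, ev B hL (∑ i, ∑ a, ∑ b, P i a * n c' i b * H (a, b) j)
          * zz (f j)) := by
      rw [← hexp (n c'), map_mul, inv_mul_cancel_left₀ hDne]
    show rho (∑ i, (∑ a, ev B hL (P i a) * z a) * ∑ b, ev B hL (n c' i b) * w b) ∈ SR L (E / 2 - X)
    rw [e6]
    have hs : ∑ j, ev B hL (∑ i, ∑ a, ∑ b, P i a * n c' i b * H (a, b) j) * zz (f j)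
        ∈ Sv B L none (E / 2 - κ' * c * (Fintype.card (Fin k × Zb) + 1) - 2 * C) := by
      refine Finset.sum_induction _ (fun g => g ∈ Sv B L none
        (E / 2 - κ' * c * (Fintype.card (Fin k × Zb) + 1) - 2 * C))
        (fun _ _ => (filt_v hL none).add_mem) ((filt_v hL none).zero_mem _) fun j _ => ?_
      have h5 := (filt_v (B := B) hL none).mul_mem (ev_Sv (B := B) hL (fun g hg => hnB c' j g hg))
        (hzz1 none (f j))
      exact (filt_v hL none).anti (by linarith) h5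
    refine SR_anti hL ?_ (SR_mul hL hinv (SR_rho hs))
    linarith

end Pool.Agent.L0h90.AJ.GBil

namespace Pool.Agent.L0h90.AJ

/-- **GBIL** -/
theorem gbil (h1 : Pool.Agent.L0h79.FR.S_KPQ) (h2 : Pool.Agent.L0h79.FR.S_IND)
    (h3 : Pool.Agent.L0h79.FR.S_EVD) (h4 : Pool.Agent.L0h79.AJ.S_BSYS) :
    Pool.Agent.L0h79.AJ.S_GBIL :=
  GBil.gbil h1 h2 h3 h4

end Pool.Agent.L0h90.AJ
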